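import Mathlib
import Pool.Agent.Run7.h103.UN.Groups
import Pool.Agent.Run7.h103.PF.Meas
import Pool.Agent.Results.MP_a89d6d_nt.MeasurePiSquaredZetaThree

set_option autoImplicit false

/-!
# The Hoffman elements `1, ζ(2), ζ(3)` over the predictable numbers, in all bases but two

At the scale `(M, K)` a real number `x` is predictable in base `b` if some automaton with at most `K`
states which reads the digits of `x` in base `b` one by one and predicts the next one makes at most
`A log (M / (K + 1))` errors among the first `M` digits. (Digits may be replaced by the differences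
between the digits and the letters of fixed words of linear block complexity.) Put
`H = e ^ (A (K + 1))`.

Let `F` be a finite set of bases, any three of which are multiplicatively independent, for instance a
set of prime numbers. We prove: for all `r`, `d`, `A` and `ε > 0` there is `R` such that for all
`M ≥ R (K + 1)` and for all bases `b` in `F` with at most two exceptions, which depend only on `M` and
`K`,

`|P_0 (x) + P_1 (x) ζ(2) + P_2 (x) ζ(3)| > e ^ (- ε M)`

for all `x = (x_1, ..., x_r)`, `|x_i| ≤ H`, which are predictable in base `b` at the scale `(M, K)` and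
for all integer polynomials `P_j` of degree at most `d` in each variable with coefficients at most `H`
and `max |P_j (x)| ≥ 1 / H`. So the Hoffman elements `1, ζ(2), ζ(3)` of weight at most `3` are
linearly independent not only over `ℚ` but over the ring generated by the predictable numbers,
uniformly and with a measure, in all bases of `F` but two. For instance for every real number `t` with
`|t| ≤ H` one of the numbers `t` and `ζ(3) - t ζ(2)` is not predictable in base `b`, if
`|ζ(3) - t ζ(2)| ≤ H` too; the constant `R` and the exceptional bases do not depend on `t`.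

More generally let `z_0, z_1, z_2` be real numbers with a measure of linear independence over `ℚ`. If
there are three relations `P_0 (x) z_0 + P_1 (x) z_1 + P_2 (x) z_2 ≈ 0` with polynomials in numbers which
are predictable in three families of bases such that the subgroups of `ℚˣ` generated by the three
families are independent, then `M < R (K + 1)`. For any number `s` of real numbers `z_j` with a
measure, two relations of different kinds are enough: if all `z_j` are quotients of polynomials in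
predictable numbers in the bases of one family, then there is no linear relation between them with
coefficients which are polynomials in predictable numbers in the bases of the other family.

Proof. In the residue field of the ring of bounded germs we have three relations for the constant
germs `z_j` with coefficients in three fields, each of which is linearly disjoint from the composite
of the previous ones over the field `k` of germs of bounded rational numbers (subspace theorem with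
moving forms). If the last two relations are not proportional, their cross product is proportional to
`z` and orthogonal to the first one; by linear disjointness we may apply `k`-linear functionals to the
coefficients of the first relation, and obtain relations over `k`, which contradict the measure. If
they are proportional, the same argument applies to the two of them.
-/

namespace Pool.Agent.Results.MP_c2d7b4_nt.AllBasesButTwo

open Pool.Agent.Run7.h103.PF Pool.Agent.Run7.h103.UN

/-- `ζ(2)` -/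
noncomputable def zeta2 : ℝ := ∑' n : ℕ, 1 / ((n : ℝ) + 1) ^ 2

/-- `ζ(3)` -/
noncomputable def zeta3 : ℝ := ∑' n : ℕ, 1 / ((n : ℝ) + 1) ^ 3

/-- the subgroup of the multiplicative group of `ℚ` generated by `A` -/
def group (A : Set ℕ) : Subgroup ℚˣ := Subgroup.closure {u | ∃ b ∈ A, ((u : ℚˣ) : ℚ) = b}

/-- `b ^ x c ^ y d ^ t = 1` only for `x = y = t = 0` -/
def IndependentTriple (b c d : ℕ) : Prop :=
  ∀ x y t : ℤ, (b : ℚ) ^ x * (c : ℚ) ^ y * (d : ℚ) ^ t = 1 → x = 0 ∧ y = 0 ∧ t = 0

/-- For each `i` the number `x_i` has absolute value at most `e ^ (A (K + 1))`, and some automaton with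
at most `K` states which reads the differences between the digits of `x_i` in base `b_i` and the
letters of `u_i` and predicts the next one makes at most `A log (M / (K + 1))` errors among the first
`M` places. -/
def PredictableIn {k : ℕ} (b : Fin k → ℕ) (u : Fin k → ℕ → ℤ) (A : ℝ) (M K : ℕ) (x : Fin k → ℝ) :
    Prop :=
  ∀ i, |x i| ≤ Real.exp (A * (K + 1)) ∧
    ¬ Unpredictable (b i) (u i) (x i) M K (A * Real.log (M / (K + 1)))

/-- There is a relation `|∑ P_j (x) z_j| ≤ e ^ (-ε M)` with predictable numbers `x_i` and integer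
polynomials `P_j` of degree at most `d` in each variable, with coefficients at most
`e ^ (A (K + 1))`, such that `|P_j (x)| ≥ e ^ (- A (K + 1))` for some `j`. -/
def Related {k s : ℕ} (b : Fin k → ℕ) (u : Fin k → ℕ → ℤ) (d : ℕ) (A ε : ℝ) (M K : ℕ)
    (z : Fin s → ℝ) : Prop :=
  ∃ (x : Fin k → ℝ) (a : Fin s → (Fin k → Fin (d + 1)) → ℤ), PredictableIn b u A M K x ∧
    (∀ j, SmallCoeff A K (a j)) ∧ (∃ j, Real.exp (-(A * (K + 1))) ≤ |value (a j) x|) ∧
    |∑ j, value (a j) x * z j| ≤ Real.exp (-(ε * M))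

/-- The numbers `z_j` are quotients of polynomials in predictable numbers `x_i`:
`|Q (x) z_j - P_j (x)| ≤ e ^ (-ε M)` for all `j`, with integer polynomials `Q`, `P_j` of degree at most
`d` in each variable, with coefficients at most `e ^ (A (K + 1))`, and
`|Q (x)| ≥ e ^ (- A (K + 1))`. -/
def Represented {k s : ℕ} (b : Fin k → ℕ) (u : Fin k → ℕ → ℤ) (d : ℕ) (A ε : ℝ) (M K : ℕ)
    (z : Fin s → ℝ) : Prop :=
  ∃ (x : Fin k → ℝ) (a₀ : (Fin k → Fin (d + 1)) → ℤ) (a : Fin s → (Fin k → Fin (d + 1)) → ℤ),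
    PredictableIn b u A M K x ∧ SmallCoeff A K a₀ ∧ (∀ j, SmallCoeff A K (a j)) ∧
    Real.exp (-(A * (K + 1))) ≤ |value a₀ x| ∧
    ∀ j, |value a₀ x * z j - value (a j) x| ≤ Real.exp (-(ε * M))

lemma nearRel_of {k s : ℕ} {b : Fin k → ℕ} {u : Fin k → ℕ → ℤ} {d : ℕ} {A ε : ℝ} {M K : ℕ}
    {z : Fin s → ℝ} (h : Related b u d A ε M K z) : NearRel b u d A ε M K z := by
  obtain ⟨x, a, h1, h2, h3, h4⟩ := h
  exact ⟨x, a, fun i => (h1 i).1, fun i => good_of (h1 i).2, h2, h3, h4⟩

lemma nearFrac_of {k s : ℕ} {b : Fin k → ℕ} {u : Fin k → ℕ → ℤ} {d : ℕ} {A ε : ℝ} {M K : ℕ}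
    {z : Fin s → ℝ} (h : Represented b u d A ε M K z) : NearFrac b u d A ε M K z := by
  obtain ⟨x, a₀, a, h1, h2, h3, h4, h5⟩ := h
  exact ⟨x, a₀, a, fun i => (h1 i).1, fun i => good_of (h1 i).2, h2, h3, h4, h5⟩

lemma mem_group {c : ℕ} (hc : 2 ≤ c) {u : ℚˣ} (hu : u ∈ group {c}) :
    ∃ k : ℤ, ((u : ℚˣ) : ℚ) = (c : ℚ) ^ k := by
  have h0 : (c : ℚ) ≠ 0 := by exact_mod_cast (by omega : c ≠ 0)
  unfold group at hu
  induction hu using Subgroup.closure_induction with
  | mem x hx =>
    obtain ⟨b, hb, hxb⟩ := hx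
    rw [Set.mem_singleton_iff] at hb
    exact ⟨1, by rw [hxb, hb, zpow_one]⟩
  | one => exact ⟨0, by simp⟩
  | mul x y _ _ hx hy =>
    obtain ⟨k, hk⟩ := hx
    obtain ⟨l, hl⟩ := hy
    exact ⟨k + l, by rw [Units.val_mul, hk, hl, zpow_add₀ h0]⟩
  | inv x _ hx =>
    obtain ⟨k, hk⟩ := hx
    exact ⟨-k, by rw [Units.val_inv_eq_inv_val, hk, zpow_neg]⟩

lemma group_triple {b c d : ℕ} (hb : 2 ≤ b) (hc : 2 ≤ c) (hd : 2 ≤ d)
    (h : IndependentTriple b c d) :
    group {b} ⊓ (group {c} ⊔ group {d}) = ⊥ ∧ group {c} ⊓ group {d} = ⊥ := by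
  have hb0 : (b : ℚ) ≠ 0 := by exact_mod_cast (by omega : b ≠ 0)
  have hc0 : (c : ℚ) ≠ 0 := by exact_mod_cast (by omega : c ≠ 0)
  have hd0 : (d : ℚ) ≠ 0 := by exact_mod_cast (by omega : d ≠ 0)
  constructor
  · rw [eq_bot_iff]
    rintro u ⟨h1, h2⟩
    obtain ⟨x, hx⟩ := mem_group hb h1
    obtain ⟨v, hv, w, hw, hvw⟩ := Subgroup.mem_sup.1 h2
    obtain ⟨y, hy⟩ := mem_group hc hv
    obtain ⟨t, ht⟩ := mem_group hd hw
    have h3 : (b : ℚ) ^ x = (c : ℚ) ^ y * (d : ℚ) ^ t := by
      rw [← hx, ← hy, ← ht, ← hvw, Units.val_mul]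
    have h4 := (h (-x) y t (by
      rw [mul_assoc, ← h3, zpow_neg, inv_mul_cancel₀ (zpow_ne_zero _ hb0)])).1
    have h5 : x = 0 := by omega
    rw [Subgroup.mem_bot]
    exact Units.ext (by rw [hx, h5, zpow_zero, Units.val_one])
  · rw [eq_bot_iff]
    rintro u ⟨h1, h2⟩
    obtain ⟨y, hy⟩ := mem_group hc h1
    obtain ⟨t, ht⟩ := mem_group hd h2
    have h3 : (c : ℚ) ^ y = (d : ℚ) ^ t := by rw [← hy, ht]
    have h4 := (h 0 (-y) t (by
      rw [zpow_zero, one_mul, ← h3, zpow_neg, inv_mul_cancel₀ (zpow_ne_zero _ hc0)])).2.1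
    have h5 : y = 0 := by omega
    rw [Subgroup.mem_bot]
    exact Units.ext (by rw [hy, h5, zpow_zero, Units.val_one])

lemma group_range {k : ℕ} (b : ℕ) : group (Set.range fun _ : Fin k => b) ≤ group {b} := by
  refine Subgroup.closure_mono ?_
  rintro u ⟨c, ⟨_, rfl⟩, hu⟩
  exact ⟨_, rfl, hu⟩

/-- the measure for `1, π², ζ(3)` -/
theorem measure : LinearMeasure ![1, Real.pi ^ 2, zeta3] := by
  obtain ⟨c, hc, κ, hκ, h⟩ := Pool.Agent.Results.MP_a89d6d_nt.MeasurePiSquaredZetaThree.base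
  obtain ⟨w', c', hc', h'⟩ := pi_sq_lin
  obtain ⟨k, hk⟩ := exists_nat_ge κ
  set d : ℝ := min c c' with hd
  have hd0 : 0 < d := lt_min hc hc'
  obtain ⟨Q, hQ⟩ := exists_nat_ge (1 / d + 1)
  refine ⟨k + w' + 1, max Q 1, fun a ha H hH haH => ?_⟩
  have hH1 : 1 ≤ H := (le_max_right _ _).trans hH
  have hHr : (1 : ℝ) ≤ H := by exact_mod_cast hH1
  have hH0 : (0 : ℝ) < H := by linarith
  have hHQ : 1 / d + 1 ≤ (H : ℝ) := hQ.trans (by exact_mod_cast (le_max_left _ _).trans hH)
  have hdH : 1 < d * H := by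
    have : 1 / d < H := by linarith
    rw [div_lt_iff₀ hd0] at this
    linarith
  have habs : ∀ j, |(a j : ℝ)| ≤ H := fun j => by
    rw [← Int.cast_abs]
    exact_mod_cast haH j
  have hsum : ∑ j, (a j : ℝ) * (![1, Real.pi ^ 2, zeta3] : Fin 3 → ℝ) j =
      (a 0 : ℝ) + a 1 * Real.pi ^ 2 + a 2 * zeta3 := by
    rw [Fin.sum_univ_three]
    simp only [Matrix.cons_val_zero, Matrix.cons_val_one, Matrix.cons_val, mul_one]
  rw [hsum]
  set T : ℝ := |(a 0 : ℝ) + a 1 * Real.pi ^ 2 + a 2 * zeta3| with hT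
  have hTd : d ≤ T * (H : ℝ) ^ (k + w') := by
    by_cases ha2 : a 2 = 0
    · have hne : a 0 ≠ 0 ∨ a 1 ≠ 0 := by
        by_contra hcon
        push Not at hcon
        apply ha
        funext j
        fin_cases j
        · exact hcon.1
        · exact hcon.2
        · exact ha2
      have h1 := h' (a 0) (a 1) hne H hHr (habs 0) (habs 1)
      have h2 : T = |(a 0 : ℝ) + a 1 * Real.pi ^ 2| := by
        rw [hT, ha2]
        simp
      rw [h2]
      calc d ≤ c' := min_le_right _ _
        _ ≤ (H : ℝ) ^ w' * |(a 0 : ℝ) + a 1 * Real.pi ^ 2| := h1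
        _ ≤ (H : ℝ) ^ (k + w') * |(a 0 : ℝ) + a 1 * Real.pi ^ 2| := by
            gcongr
            omega
        _ = _ := mul_comm _ _
    · have h1 := h (a 0) (a 1) (a 2) H hHr ha2 (habs 1) (habs 2)
      have h2 : c * (H : ℝ) ^ (-κ) ≤ T := h1
      have h3 : (H : ℝ) ^ (-κ) * (H : ℝ) ^ k ≥ 1 := by
        rw [← Real.rpow_natCast, ← Real.rpow_add hH0]
        exact Real.one_le_rpow hHr (by linarith)
      calc d ≤ c := min_le_left _ _
        _ = c * 1 := (mul_one c).symm
        _ ≤ c * ((H : ℝ) ^ (-κ) * (H : ℝ) ^ k) := by gcongr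
        _ = c * (H : ℝ) ^ (-κ) * (H : ℝ) ^ k := by ring
        _ ≤ T * (H : ℝ) ^ k := by gcongr
        _ ≤ T * (H : ℝ) ^ (k + w') := by
            have : 0 ≤ T := abs_nonneg _
            gcongr
            omega
  calc (1 : ℝ) < d * H := hdH
    _ ≤ T * (H : ℝ) ^ (k + w') * H := by gcongr
    _ = T * (H : ℝ) ^ (k + w' + 1) := by ring

lemma zeta2_eq : zeta2 = Real.pi ^ 2 / 6 := by
  have h1 := hasSum_zeta_two
  have h2 := (hasSum_nat_add_iff' 1).2 h1
  have h3 : zeta2 = Real.pi ^ 2 / 6 - ∑ i ∈ Finset.range 1, 1 / (i : ℝ) ^ 2 := by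
    rw [← h2.tsum_eq]
    unfold zeta2
    congr 1
    funext n
    push_cast
    rfl
  rw [h3]
  simp

/-- the measure for `1, ζ(2), ζ(3)` -/
theorem measure' : LinearMeasure ![1, zeta2, zeta3] := by
  obtain ⟨w, Q, h⟩ := measure
  refine ⟨2 * w + 1, max Q 6, fun a ha H hH haH => ?_⟩
  have hH6 : 6 ≤ H := (le_max_right _ _).trans hH
  have hHr : (6 : ℝ) ≤ H := by exact_mod_cast hH6
  have h1 := h ![6 * a 0, a 1, 6 * a 2] (by
    intro h0
    apply ha
    have g0 := congrFun h0 0
    have g1 := congrFun h0 1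
    have g2 := congrFun h0 2
    simp only [Matrix.cons_val_zero, Matrix.cons_val_one, Matrix.cons_val, Pi.zero_apply] at g0 g1 g2
    funext j
    fin_cases j
    · change a 0 = 0
      omega
    · exact g1
    · change a 2 = 0
      omega) (6 * H) (by
    have : Q ≤ H := (le_max_left _ _).trans hH
    omega) (by
    intro j
    have g0 := haH 0
    have g1 := haH 1
    have g2 := haH 2
    fin_cases j
    · change |6 * a 0| ≤ ((6 * H : ℕ) : ℤ)
      rw [abs_mul]
      push_cast
      have : |(6 : ℤ)| = 6 := rfl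
      rw [this]
      omega
    · change |a 1| ≤ ((6 * H : ℕ) : ℤ)
      push_cast
      omega
    · change |6 * a 2| ≤ ((6 * H : ℕ) : ℤ)
      rw [abs_mul]
      push_cast
      have : |(6 : ℤ)| = 6 := rfl
      rw [this]
      omega)
  rw [Fin.sum_univ_three] at h1 ⊢
  simp only [Matrix.cons_val_zero, Matrix.cons_val_one, Matrix.cons_val, mul_one] at h1 ⊢
  rw [zeta2_eq]
  push_cast at h1
  have e : (6 * a 0 : ℝ) + a 1 * Real.pi ^ 2 + 6 * a 2 * zeta3 =
      6 * (a 0 + a 1 * (Real.pi ^ 2 / 6) + a 2 * zeta3) := by ring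
  rw [e, abs_mul, abs_of_pos (by norm_num : (0 : ℝ) < 6)] at h1
  have h2 : (6 : ℝ) * (6 * H) ^ w ≤ (H : ℝ) ^ (2 * w + 1) := by
    calc (6 : ℝ) * (6 * H) ^ w ≤ H * (H * H) ^ w := by gcongr
      _ = (H : ℝ) ^ (2 * w + 1) := by ring
  have h3 := abs_nonneg ((a 0 : ℝ) + a 1 * (Real.pi ^ 2 / 6) + a 2 * zeta3)
  calc (1 : ℝ) < 6 * |(a 0 : ℝ) + a 1 * (Real.pi ^ 2 / 6) + a 2 * zeta3| * (6 * H) ^ w := h1
    _ = |(a 0 : ℝ) + a 1 * (Real.pi ^ 2 / 6) + a 2 * zeta3| * (6 * (6 * H) ^ w) := by ring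
    _ ≤ _ := by gcongr

/-- **All bases but two.** -/
theorem all_but_two {z : Fin 3 → ℝ} (hz : LinearMeasure z) (F : Finset ℕ) (hF2 : ∀ b ∈ F, 2 ≤ b)
    (hF : ∀ b ∈ F, ∀ c ∈ F, ∀ e ∈ F, b ≠ c → b ≠ e → c ≠ e → IndependentTriple b c e) {r : ℕ}
    (u : ℕ → Fin r → ℕ → ℤ) {C : ℝ} (hu : ∀ b ∈ F, ∀ i, SimpleWord b C (u b i)) (d : ℕ) (A : ℝ)
    {ε : ℝ} (hε : 0 < ε) :
    ∃ R : ℕ, ∀ M K : ℕ, R * (K + 1) ≤ M → ∃ c e : ℕ, ∀ b ∈ F, b ≠ c → b ≠ e →
      ¬ Related (fun _ => b) (u b) d A ε M K z := by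
  classical
  have h1 : ∀ p : F × F × F, ∃ R : ℕ, (p.1 : ℕ) ≠ p.2.1 → (p.1 : ℕ) ≠ p.2.2 →
      (p.2.1 : ℕ) ≠ p.2.2 → ∀ M K : ℕ, R * (K + 1) ≤ M →
      NearRel (fun _ : Fin r => (p.1 : ℕ)) (u p.1) d A ε M K z →
      NearRel (fun _ : Fin r => (p.2.1 : ℕ)) (u p.2.1) d A ε M K z →
      NearRel (fun _ : Fin r => (p.2.2 : ℕ)) (u p.2.2) d A ε M K z → False := by
    rintro ⟨b, c, e⟩
    by_cases h1 : (b : ℕ) = c
    · exact ⟨0, fun h => absurd h1 h⟩
    by_cases h2 : (b : ℕ) = e
    · exact ⟨0, fun _ h => absurd h2 h⟩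
    by_cases h3 : (c : ℕ) = e
    · exact ⟨0, fun _ _ h => absurd h3 h⟩
    obtain ⟨g1, g2⟩ := group_triple (hF2 _ b.2) (hF2 _ c.2) (hF2 _ e.2)
      (hF _ b.2 _ c.2 _ e.2 h1 h2 h3)
    obtain ⟨R, hR⟩ := three_groups (fun _ : Fin r => (b : ℕ)) (fun _ : Fin r => (c : ℕ))
      (fun _ : Fin r => (e : ℕ)) (fun _ => hF2 _ b.2) (fun _ => hF2 _ c.2) (fun _ => hF2 _ e.2)
      (le_bot_iff.1 ((inf_le_inf (group_range _) (sup_le_sup (group_range _)
        (group_range _))).trans g1.le))
      (le_bot_iff.1 ((inf_le_inf (group_range _) (group_range _)).trans g2.le))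
      (u b) (u c) (u e) (fun i => simple_of (hu _ b.2 i)) (fun i => simple_of (hu _ c.2 i))
      (fun i => simple_of (hu _ e.2 i)) hz d A hε
    exact ⟨R, fun _ _ _ => hR⟩
  choose R hR using h1
  refine ⟨∑ p, R p, fun M K hMK => ?_⟩
  have hRp : ∀ p, R p * (K + 1) ≤ M := fun p => le_trans (Nat.mul_le_mul_right _
    (Finset.single_le_sum (f := R) (fun _ _ => Nat.zero_le _) (Finset.mem_univ p))) hMK
  by_cases hc : ∃ c ∈ F, Related (fun _ => c) (u c) d A ε M K z
  · obtain ⟨c, hcF, hc⟩ := hc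
    by_cases he : ∃ e ∈ F, e ≠ c ∧ Related (fun _ => e) (u e) d A ε M K z
    · obtain ⟨e, heF, hec, he⟩ := he
      refine ⟨c, e, fun b hb hbc hbe hcon => ?_⟩
      exact hR (⟨b, hb⟩, ⟨c, hcF⟩, ⟨e, heF⟩) hbc hbe hec.symm M K (hRp _) (nearRel_of hcon)
        (nearRel_of hc) (nearRel_of he)
    · refine ⟨c, c, fun b hb hbc _ hcon => he ⟨b, hb, hbc, hcon⟩⟩
  · exact ⟨0, 0, fun b hb _ _ hcon => hc ⟨b, hb, hcon⟩⟩

/-- (1) Let `z_0, z_1, z_2` be real numbers with a measure of linear independence over `ℚ`, and let `b_i`,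
`b'_i`, `b''_i` be three finite families of bases, such that the subgroup of `ℚˣ` generated by the `b_i`
meets the subgroup generated by the `b'_i` and the `b''_i` in `1`, and the subgroups generated by the
`b'_i` and by the `b''_i` meet in `1`. Let `u_i`, `u'_i`, `u''_i` be words of linear block complexity. For
all `d`, `A` and `ε > 0` there is `R` such that for all `M`, `K` with `R (K + 1) ≤ M` there are not
relations between `z_0, z_1, z_2` over the predictable numbers for all three families (`Related`).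

(2) Let `z_1, ..., z_s` be real numbers with a measure of linear independence over `ℚ`, and let `b_i`,
`b'_i` be two finite families of bases which generate subgroups with trivial intersection. For all
`d`, `A` and `ε > 0` there is `R` such that for all `M`, `K` with `R (K + 1) ≤ M` it is impossible that
the `z_j` are quotients of polynomials in predictable numbers for the first family (`Represented`)
and satisfy a relation over the predictable numbers for the second (`Related`).

(3) The numbers `1, ζ(2), ζ(3)` have a measure of linear independence.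

(4) Let `F` be a finite set of bases, any three of which are multiplicatively independent. For all
words `u_{b,i}` of linear block complexity over `{0, ..., b - 1}`, all `d`, `A` and `ε > 0` there is `R`
such that for all `M`, `K` with `R (K + 1) ≤ M` and for all `b` in `F` with at most two exceptions:
`|P_0 (x) + P_1 (x) ζ(2) + P_2 (x) ζ(3)| > e ^ (- ε M)` for all `x = (x_1, ..., x_r)` which are predictable in
base `b` (`PredictableIn`) and all integer polynomials `P_j` of degree at most `d` in each variable with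
coefficients at most `e ^ (A (K + 1))` and with `|P_j (x)| ≥ e ^ (- A (K + 1))` for some `j`. -/
theorem result :
    (∀ z : Fin 3 → ℝ, LinearMeasure z → ∀ (k k' k'' : ℕ) (b : Fin k → ℕ) (b' : Fin k' → ℕ)
      (b'' : Fin k'' → ℕ), (∀ i, 2 ≤ b i) → (∀ i, 2 ≤ b' i) → (∀ i, 2 ≤ b'' i) →
      group (Set.range b) ⊓ (group (Set.range b') ⊔ group (Set.range b'')) = ⊥ →
      group (Set.range b') ⊓ group (Set.range b'') = ⊥ →
      ∀ (C : ℝ) (u : Fin k → ℕ → ℤ) (u' : Fin k' → ℕ → ℤ) (u'' : Fin k'' → ℕ → ℤ),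
      (∀ i, SimpleWord (b i) C (u i)) → (∀ i, SimpleWord (b' i) C (u' i)) →
      (∀ i, SimpleWord (b'' i) C (u'' i)) → ∀ (d : ℕ) (A ε : ℝ), 0 < ε →
      ∃ R : ℕ, ∀ M K : ℕ, R * (K + 1) ≤ M →
        ¬ (Related b u d A ε M K z ∧ Related b' u' d A ε M K z ∧ Related b'' u'' d A ε M K z)) ∧
    (∀ (s : ℕ) (z : Fin s → ℝ), LinearMeasure z → ∀ (k k' : ℕ) (b : Fin k → ℕ) (b' : Fin k' → ℕ),
      (∀ i, 2 ≤ b i) → (∀ i, 2 ≤ b' i) → group (Set.range b) ⊓ group (Set.range b') = ⊥ →
      ∀ (C : ℝ) (u : Fin k → ℕ → ℤ) (u' : Fin k' → ℕ → ℤ),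
      (∀ i, SimpleWord (b i) C (u i)) → (∀ i, SimpleWord (b' i) C (u' i)) →
      ∀ (d : ℕ) (A ε : ℝ), 0 < ε → ∃ R : ℕ, ∀ M K : ℕ, R * (K + 1) ≤ M →
        ¬ (Represented b u d A ε M K z ∧ Related b' u' d A ε M K z)) ∧
    LinearMeasure ![1, zeta2, zeta3] ∧
    (∀ F : Finset ℕ, (∀ b ∈ F, 2 ≤ b) →
      (∀ b ∈ F, ∀ c ∈ F, ∀ e ∈ F, b ≠ c → b ≠ e → c ≠ e → IndependentTriple b c e) →
      ∀ (r : ℕ) (C : ℝ) (u : ℕ → Fin r → ℕ → ℤ), (∀ b ∈ F, ∀ i, SimpleWord b C (u b i)) →
      ∀ (d : ℕ) (A ε : ℝ), 0 < ε → ∃ R : ℕ, ∀ M K : ℕ, R * (K + 1) ≤ M →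
        ∃ c e : ℕ, ∀ b ∈ F, b ≠ c → b ≠ e →
          ∀ (x : Fin r → ℝ) (p₀ p₁ p₂ : (Fin r → Fin (d + 1)) → ℤ),
            PredictableIn (fun _ => b) (u b) A M K x →
            SmallCoeff A K p₀ → SmallCoeff A K p₁ → SmallCoeff A K p₂ →
            Real.exp (-(A * (K + 1))) ≤ max |value p₀ x| (max |value p₁ x| |value p₂ x|) →
            Real.exp (-(ε * M)) <
              |value p₀ x + value p₁ x * zeta2 + value p₂ x * zeta3|) := by
  refine ⟨?_, ?_, measure', ?_⟩
  · intro z hz k k' k'' b b' b'' hb hb' hb'' hG hG' C u u' u'' hu hu' hu'' d A ε hε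
    obtain ⟨R, hR⟩ := three_groups b b' b'' hb hb' hb'' hG hG' u u' u''
      (fun i => simple_of (hu i)) (fun i => simple_of (hu' i)) (fun i => simple_of (hu'' i)) hz d A
      hε
    exact ⟨R, fun M K hMK h => hR M K hMK (nearRel_of h.1) (nearRel_of h.2.1) (nearRel_of h.2.2)⟩
  · intro s z hz k k' b b' hb hb' hG C u u' hu hu' d A ε hε
    obtain ⟨R, hR⟩ := two_groups b b' hb hb' hG u u' (fun i => simple_of (hu i))
      (fun i => simple_of (hu' i)) hz d A hε
    exact ⟨R, fun M K hMK h => hR M K hMK (nearFrac_of h.1) (nearRel_of h.2)⟩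
  · intro F hF2 hF r C u hu d A ε hε
    obtain ⟨R, hR⟩ := all_but_two measure' F hF2 hF u hu d A hε
    refine ⟨R, fun M K hMK => ?_⟩
    obtain ⟨c, e, hce⟩ := hR M K hMK
    refine ⟨c, e, fun b hb hbc hbe x p₀ p₁ p₂ hx h0 h1 h2 hmax => ?_⟩
    by_contra hcon
    refine hce b hb hbc hbe ⟨x, ![p₀, p₁, p₂], hx, ?_, ?_, ?_⟩
    · intro j
      fin_cases j
      · exact h0
      · exact h1
      · exact h2
    · rcases le_max_iff.1 hmax with h | h
      · exact ⟨0, h⟩
      · rcases le_max_iff.1 h with h | h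
        · exact ⟨1, h⟩
        · exact ⟨2, h⟩
    · rw [Fin.sum_univ_three]
      simp only [Matrix.cons_val_zero, Matrix.cons_val_one, Matrix.cons_val, mul_one]
      exact not_lt.1 hcon

end Pool.Agent.Results.MP_c2d7b4_nt.AllBasesButTwo
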