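import Mathlib
import Pool.Agent.Run7.h53.VD.Main

/-!
# MP_c2d7b4_nt: a linear relation between multiple zeta values survives few extensions of the words

Let `U` be a finite set of words in positive integers (for example the Hoffman words of one weight), let `c_u`, `u ∈ U`, be
REAL numbers, not all zero, and consider the nonempty words `s` for which all the words `u s` are admissible and
`∑ c_u ζ(u s) = 0`. Hoffman's conjecture says that for rational `c_u` and words in the letters `2`, `3` there is no such `s`.
We prove: there is a number `R`, which depends only on the number and the lengths of the words in `U`, neither on the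
coefficients nor on the letters, such that

* for every infinite word `a_1 a_2 a_3 ...` at most `R` of the words `s = a_1 ... a_n` have this property;
* `∑ p(s) ≤ R`, where `p(s)` is the product of the weights of the letters of `s`, for all weights of the letters with sum at
  most one (Kraft inequality), for example `∑ 2 ^ (- wt s) ≤ R`;
* the proportions of these words `s` among all Hoffman words of weight `n`, `n = 0, 1, 2, ...`, have a sum of at most `4 R`.

The same is true for the words in front of the words of `U`, `∑ c_u ζ(s u) = 0`, read from the right to the left. If the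
letters of the words in `U` are at most `J` and their lengths at most `r`, then `R = (r J + 2) ^ r - 1` is possible for words
behind `U`, and `R = (J + 2) ^ r - 1` for words in front of `U`.

Proof: `ζ(u s)` is obtained from the tails `T_u(M)` of `ζ(u)` by iterated summation with positive weights. A summation does not
increase the number of changes of sign of `∑ c_u T_u(M)`, and decreases it if the whole sum vanishes (discrete Rolle
theorem). The number of changes of sign at the beginning is bounded by the zero estimates of the starting library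
(`Pool.Agent.R404.MZ`, helpers 760 and 404), applied to the tails, which are combinations of truncated multiple zeta values.
-/

set_option autoImplicit false

namespace Pool.Agent.Results.MP_c2d7b4_nt.FewExtensions

open scoped ENNReal

/-- the multiple zeta value of the list `l`, the first entry belongs to the largest summation variable, in the words of
`S18393`; the value is `1` for the empty list -/
noncomputable def mzv (l : List ℕ) : ℝ :=
  ∑' m : {m : Fin l.length → ℕ // StrictAnti m ∧ ∀ i, 0 < m i}, ∏ i, ((m.1 i : ℝ) ^ (l.get i))⁻¹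

/-- positive entries, the first one (if there is one) is at least two -/
def Admissible (l : List ℕ) : Prop := (∀ x ∈ l, 1 ≤ x) ∧ ∀ x ∈ l.head?, 2 ≤ x

/-- the nonempty words `s` with `∑ c_u ζ(u s) = 0`, all the words `u s` being admissible -/
def behind (U : Finset (List ℕ)) (c : List ℕ → ℝ) : Set (List ℕ) :=
  {s | s ≠ [] ∧ (∀ u ∈ U, Admissible (u ++ s)) ∧ ∑ u ∈ U, c u * mzv (u ++ s) = 0}

/-- the nonempty words `s` with `∑ c_u ζ(s' u) = 0`, where `s'` is the word `s` read backwards, all the words `s' u` being
admissible -/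
def inFront (U : Finset (List ℕ)) (c : List ℕ → ℝ) : Set (List ℕ) :=
  {s | s ≠ [] ∧ (∀ u ∈ U, Admissible (s.reverse ++ u)) ∧ ∑ u ∈ U, c u * mzv (s.reverse ++ u) = 0}

/-- the words with letters `2`, `3` of weight `n` -/
def hoffman (n : ℕ) : Set (List ℕ) := {s | (∀ x ∈ s, x = 2 ∨ x = 3) ∧ s.sum = n}

/-- `Z` has at most `R` members on every branch, satisfies the Kraft inequality for all weights of the letters, and the
proportions of its members among the Hoffman words of weight `n` have a sum of at most `4 R` -/
def Rare (Z : Set (List ℕ)) (R : ℕ) : Prop :=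
  (∀ a : ℕ → ℕ, {n : ℕ | (List.range n).map a ∈ Z}.encard ≤ R) ∧
  (∀ p : ℕ → ℝ≥0∞, ∑' x, p x ≤ 1 → ∑' s : Z, (s.1.map p).prod ≤ R) ∧
  ∑' n, ((Z ∩ hoffman n).ncard : ℝ≥0∞) / ((hoffman n).ncard : ℝ≥0∞) ≤ 4 * R

lemma adm_iff (l : List ℕ) : Admissible l ↔ Pool.Agent.H447R2.MZ.Adm l := by
  unfold Admissible Pool.Agent.H447R2.MZ.Adm
  refine and_congr_right fun _ => ?_
  cases l with
  | nil => simp
  | cons x l =>
    constructor
    · intro h a t hat
      have := (List.cons.inj hat).1
      subst this
      exact h x (by simp)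
    · intro h y hy
      have : x = y := by simpa using hy
      subst this
      exact h x l rfl

lemma mzv_eq {l : List ℕ} (hl : Pool.Agent.H447R2.MZ.Adm l) : mzv l = Pool.Agent.H447R2.MZ.val l := by
  have h1 := Pool.Agent.H447R2.MZ.hasSum_val l.length l.get (by rw [List.ofFn_get]; exact hl)
  rw [List.ofFn_get] at h1
  exact h1.tsum_eq

lemma behind_eq (U : Finset (List ℕ)) (c : List ℕ → ℝ) : behind U c = Run7.h53.VD.Zb U c := by
  ext s
  refine and_congr_right fun _ => ?_
  simp only [adm_iff]
  refine and_congr_right fun h => ?_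
  rw [Finset.sum_congr rfl fun u hu => by rw [mzv_eq (h u hu)]]

lemma inFront_eq (U : Finset (List ℕ)) (c : List ℕ → ℝ) : inFront U c = Run7.h53.VD.Zf U c := by
  ext s
  refine and_congr_right fun _ => ?_
  simp only [adm_iff]
  refine and_congr_right fun h => ?_
  rw [Finset.sum_congr rfl fun u hu => by rw [mzv_eq (h u hu)]]

lemma rare {Z : Set (List ℕ)} {R : ℕ} (h : Run7.h53.VD.Few R Z) : Rare Z R :=
  ⟨h, fun _ hp => Run7.h53.VD.kraft _ hp h,
    Run7.h53.VD.proportions fun _ hp => Run7.h53.VD.kraft _ hp h⟩

/-- **Theorem.** (1) For all `N` and `r` there is `R` such that for every set `U` of at most `N` words of length at most `r`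
in positive integers and all real `c_u`, `u ∈ U`, not all zero, the sets of the words `s` with `∑ c_u ζ(u s) = 0` and (read
backwards) with `∑ c_u ζ(s u) = 0` are rare with the bound `R`. (2) If the letters of the words in `U` are at most `J`, this
holds with `R = (J r + 2) ^ r - 1` for `∑ c_u ζ(u s) = 0` and with `R = (J + 2) ^ r - 1` for `∑ c_u ζ(s u) = 0`. -/
theorem result :
    (∀ N r : ℕ, ∃ R : ℕ, ∀ U : Finset (List ℕ), U.card ≤ N → (∀ u ∈ U, u.length ≤ r ∧ ∀ x ∈ u, 1 ≤ x) →
      ∀ c : List ℕ → ℝ, (∃ u ∈ U, c u ≠ 0) → Rare (behind U c) R ∧ Rare (inFront U c) R) ∧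
    (∀ (J r : ℕ) (U : Finset (List ℕ)), (∀ u ∈ U, u.length ≤ r ∧ ∀ x ∈ u, 1 ≤ x ∧ x ≤ J) →
      ∀ c : List ℕ → ℝ, (∃ u ∈ U, c u ≠ 0) →
      Rare (behind U c) ((J * r + 2) ^ r - 1) ∧ Rare (inFront U c) ((J + 2) ^ r - 1)) := by
  refine ⟨fun N r => ?_, fun J r U hU c hc => ⟨?_, ?_⟩⟩
  · obtain ⟨R1, hR1⟩ := Run7.h53.VD.bound_uniform (N * 2 ^ (r + 1)) r
    obtain ⟨R2, hR2⟩ := Run7.h53.VD.bound_uniform N r
    refine ⟨max R1 R2, fun U hN hU c hc => ?_⟩
    obtain ⟨J, hJ⟩ : ∃ J, ∀ u ∈ U, ∀ x ∈ u, x ≤ J :=
      ⟨U.sup List.sum, fun u hu x hx => (List.single_le_sum (fun _ _ => Nat.zero_le _) x hx).trans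
        (Finset.le_sup (f := List.sum) hu)⟩
    have hmono : ∀ {Z : Set (List ℕ)} {R : ℕ}, Run7.h53.VD.Few (R - 1) Z → R ≤ max R1 R2 →
        Run7.h53.VD.Few (max R1 R2) Z := fun h hR a => (h a).trans (by
          exact_mod_cast (Nat.sub_le _ _).trans hR)
    refine ⟨rare ?_, rare ?_⟩
    · rw [behind_eq]
      exact hmono (Run7.h53.VD.few_behind hc fun hadm => Run7.h53.VD.tail_noWA (hR1 (J * r))
        (fun u hu => ⟨hadm u hu, (hU u hu).1, hJ u hu⟩) hN hc) (le_max_left _ _)
    · rw [inFront_eq]
      exact hmono (Run7.h53.VD.few_before (Run7.h53.VD.head_noWA (hR2 J)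
        (fun u hu => ⟨(hU u hu).1, fun x hx => ⟨(hU u hu).2 x hx, hJ u hu x hx⟩⟩) hN hc))
        (le_max_right _ _)
  · rw [behind_eq]
    exact rare (Run7.h53.VD.few_behind hc fun hadm => Run7.h53.VD.tail_noWA
      (Run7.h53.VD.bound_explicit (J * r) r _)
      (fun u hu => ⟨hadm u hu, (hU u hu).1, fun x hx => ((hU u hu).2 x hx).2⟩) le_rfl hc)
  · rw [inFront_eq]
    exact rare (Run7.h53.VD.few_before (Run7.h53.VD.head_noWA
      (Run7.h53.VD.bound_explicit J r _) hU le_rfl hc))

end Pool.Agent.Results.MP_c2d7b4_nt.FewExtensions
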