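import Mathlib
import Pool.Agent.Run7.h123.LC.JD

set_option autoImplicit false

/-!
# The joint digits of the odd zeta values

By the page, Hoffman's conjecture implies that the odd zeta values are algebraically independent. It is
known that the dimension of the space spanned by the odd zeta values up to `ζ(n)` is at least `C log n`
(Rivoal). We prove a theorem of this order on their digits. Let `b ≥ 2` be any base and consider the sequence of the vectors of the digits with index `k = 0, 1, 2, …` of the numbers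
`ζ(j)`, `s < j ≤ K s` odd. For large `K`, every odd `s` and every integer `D ≤ log K / 125` there are no early
repetitions: for all large `m` the blocks of length `m` which start at the places `0, 1, …, D m - 1` are
pairwise different. This remains true if fewer than `e^(-31 D) √(K / log K)` of the numbers are left out
(`√(K log log K / log K) / (10000 D)`, if `D ≤ log log K / 10000`). So there are at least `D m` different blocks
of length `m`, and the digits of these numbers are not read off, by different output functions, from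
the states of one automaton with fewer than `D - 1` states reading the base `a` digits of `k`, for any
`a`.

A single number with irrationality exponent `μ` has no repetition of this kind before the place
`m / (μ - 1)`, which is a small fraction of `m` for the known bounds. Linear independence alone does not
exclude early repetitions, for any number of numbers (lacunary expansions); only the number of blocks,
`D m`, is a consequence of the dimension of the spanned space.

Proof. If one block of length `m` occurs at two places `i < i' < D m`, then the numbers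
`(b^i' - b^i) ζ(j)` are at a distance less than `b^(-m)` from the integers, for all `j` at the same time, and
`b^i' - b^i < b^(D m)`. This contradicts the theorem on simultaneous approximation of the odd zeta
values in windows (`Pool.Agent.Run7.h123.LC.window_large`, a new choice of the parameters in
`Run7.h795.UW.S_M2`).
-/

namespace Pool.Agent.Results.MP_c2d7b4_nt.JointDigits

/-- the number of different blocks of length `m` in the sequence `w` -/
noncomputable def blocks {A : Type} (w : ℕ → A) (m : ℕ) : ℕ :=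
  (Set.range fun i => fun j : Fin m => w (i + j)).ncard

/-- the digit with index `k + 1` after the point in the base `b` expansion of `x` -/
noncomputable def digit (b : ℕ) (x : ℝ) (k : ℕ) : ℤ := ⌊x * (b : ℝ) ^ (k + 1)⌋ % (b : ℤ)

/-- the zeta value `ζ(j) = ∑ 1 / n^j` -/
noncomputable def zeta (j : ℕ) : ℝ := ∑' n : ℕ, 1 / ((n : ℝ) + 1) ^ j

/-- the sequence of the vectors of the digits of the numbers `ζ(j)`, `j ∈ Y`, in base `b` -/
noncomputable def joint (b : ℕ) (Y : Finset ℕ) (k : ℕ) : Y → ℤ := fun j => digit b (zeta j) k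

/-- the odd `j`, `s < j ≤ K s`, which are not in `Y` -/
def missing (K s : ℕ) (Y : Finset ℕ) : Set ℕ := {j : ℕ | s < j ∧ j ≤ K * s ∧ Odd j ∧ j ∉ Y}

/-- `√(K log log K / log K) / (10000 D)` if `D ≤ log log K / 10000`, and `e^(-31 D) √(K / log K)` for the
other `D` -/
noncomputable def number (D K : ℕ) : ℝ :=
  if (D : ℝ) ≤ Real.log (Real.log K) / 10000 then
    Real.sqrt (K * Real.log (Real.log K) / Real.log K) / (10000 * D)
  else Real.exp (-(31 * D)) * Real.sqrt (K / Real.log K)

/-- the sequence `w` is read off from the states `st k` of an automaton with `N` states reading the base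
`a` digits of `k`: `st (a k + d) = δ (st k) d` for `k ≥ 1` and `0 ≤ d < a` -/
def Automatic {A : Type} (a N : ℕ) (w : ℕ → A) : Prop :=
  ∃ (δ : Fin N → ℕ → Fin N) (st : ℕ → Fin N) (τ : Fin N → A),
    (∀ k ≥ 1, ∀ d < a, st (a * k + d) = δ (st k) d) ∧ ∀ k, w k = τ (st k)

theorem window : ∃ K0 : ℕ, ∀ K ≥ K0, ∀ s : ℕ, Odd s → ∀ D : ℕ, 1 ≤ D →
    (D : ℝ) ≤ Real.log K / 125 → ∃ q0 : ℕ, ∀ q : ℕ, q0 ≤ q →
    number D K ≤ (Set.ncard {j : ℕ | s < j ∧ j ≤ K * s ∧ Odd j ∧ ∀ p : ℤ,
        (q : ℝ) ^ (-(1 / (D : ℝ))) ≤ |(q : ℝ) * zeta j - p|} : ℝ) := by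
  obtain ⟨K1, h1⟩ := Run7.h795.UW.z_sim
  obtain ⟨K2, h2⟩ := Pool.Agent.Run7.h123.LC.window_large
  refine ⟨max K1 K2, fun K hK s hs D hD hDK => ?_⟩
  unfold number
  split_ifs with hD2
  · obtain ⟨q0, hq0⟩ := h1 K ((le_max_left _ _).trans hK) s hs D hD (by linarith)
    refine ⟨q0, fun q hq => le_trans (le_of_eq ?_) (hq0 q hq)⟩
    ring
  · exact h2 K ((le_max_right _ _).trans hK) s hs D hD hDK

/-- For all `K ≥ K₀` (`K₀` is absolute), all odd `s`, all integers `D`, `1 ≤ D ≤ log K / 125`, all bases
`b ≥ 2` and all finite sets `Y` which contain all but fewer than `number D K` of the odd `j`,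
`s < j ≤ K s`:

(1) for all large `m` the blocks of length `m` of the sequence of the vectors of the base `b` digits of
the numbers `ζ(j)`, `j ∈ Y`, which start at the places `i < D m`, are pairwise different; in particular
it has at least `D m` different blocks of length `m`;

(2) if this sequence is read off from the states of an automaton with `N` states reading the base
`a` digits of the index `k`, `a ≥ 2`, then `N ≥ D - 1`. -/
theorem result : ∃ K0 : ℕ, ∀ K ≥ K0, ∀ s : ℕ, Odd s → ∀ D : ℕ, 1 ≤ D → (D : ℝ) ≤ Real.log K / 125 →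
    ∀ b : ℕ, 2 ≤ b → ∀ Y : Finset ℕ, ((missing K s Y).ncard : ℝ) < number D K →
      (∃ m0 : ℕ, ∀ m ≥ m0, (∀ i i' : ℕ, i < i' → i' < D * m →
        ∃ l < m, joint b Y (i + l) ≠ joint b Y (i' + l)) ∧ D * m ≤ blocks (joint b Y) m) ∧
      ∀ a N : ℕ, 2 ≤ a → Automatic a N (joint b Y) → D ≤ N + 1 := by
  obtain ⟨K0, hK0⟩ := window
  refine ⟨K0, fun K hK s hs D hD hDK b hb Y hY => ?_⟩
  obtain ⟨q0, hq0⟩ := hK0 K hK s hs D hD hDK
  obtain ⟨m0, hm0⟩ := Pool.Agent.Run7.h123.LC.JD.sim_repeat hb (fun j : Y => zeta j) hD q0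
  have main : ∀ m ≥ m0, ∀ i i' : ℕ, i < i' → i' < D * m →
      ∃ l < m, joint b Y (i + l) ≠ joint b Y (i' + l) := by
    intro m hm i i' hi hi'
    by_contra hcon
    push Not at hcon
    obtain ⟨q, hq, hap⟩ := hm0 m hm i i' hi hi' fun l hl y => congrFun (hcon l hl) y
    have h1 := hq0 q hq
    have hsub : {j : ℕ | s < j ∧ j ≤ K * s ∧ Odd j ∧ ∀ p : ℤ,
        (q : ℝ) ^ (-(1 / (D : ℝ))) ≤ |(q : ℝ) * zeta j - p|} ⊆ missing K s Y := by
      rintro j ⟨a1, a2, a3, a4⟩
      refine ⟨a1, a2, a3, fun hj => ?_⟩
      obtain ⟨p, hp⟩ := hap ⟨j, hj⟩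
      exact absurd hp (not_lt.2 (a4 p))
    have hfin : (missing K s Y).Finite := (Set.finite_Iic (K * s)).subset fun _ hi => hi.2.1
    have h2 : ((Set.ncard {j : ℕ | s < j ∧ j ≤ K * s ∧ Odd j ∧ ∀ p : ℤ,
        (q : ℝ) ^ (-(1 / (D : ℝ))) ≤ |(q : ℝ) * zeta j - p|} : ℕ) : ℝ) ≤ (missing K s Y).ncard := by
      exact_mod_cast Set.ncard_le_ncard hsub hfin
    linarith
  refine ⟨⟨m0, fun m hm => ⟨main m hm, ?_⟩⟩, ?_⟩
  · by_contra hcon
    push Not at hcon
    obtain ⟨i, i', h1, h2, h3⟩ := Pool.Agent.Run7.h123.LC.JD.repetition (joint b Y) m (D * m)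
      (Pool.Agent.Run7.h123.LC.JD.blk_finite hb (fun j : Y => zeta j) m) hcon
    obtain ⟨l, hl, h4⟩ := main m hm i i' h1 h2
    exact h4 (h3 l hl)
  · rintro a N ha ⟨δ, st, τ, h1, h2⟩
    by_contra hcon
    push Not at hcon
    obtain ⟨i, i', h3, h4, h5⟩ := Pool.Agent.Run7.h123.LC.JD.repeat_automatic ha h1 τ _ h2 m0
    have h6 : m0 ≤ a ^ m0 := (Nat.lt_pow_self (by omega)).le
    have h7 : 0 < a ^ m0 := Nat.pow_pos (by omega)
    obtain ⟨l, hl, h8⟩ := main (a ^ m0) h6 i i' h3
      (h4.trans_lt (Nat.mul_lt_mul_of_pos_right hcon h7))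
    exact h8 (h5 l hl)

end Pool.Agent.Results.MP_c2d7b4_nt.JointDigits
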