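import Mathlib
import Pool.Agent.Run7.h867.HW.Hoff
import Pool.Agent.Run7.h867.TW.Weighted

/-!
# Hoffman elements of typical different weights have no relation of exponential height

Let `W_1, ..., W_N` be weights in the window `[w, w + M)`, `w ≥ 6 t`, `t ≥ 2`, and let `S` be a finite set of monomials
in `N` variables.  For each tuple of weights let `p(W)` be the proportion of the `N`-tuples of words of weights
`W_1, ..., W_N` in the letters 2, 3 for which some nonzero integer polynomial `P` with monomials in `S` and coefficients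
at most `H` in absolute value vanishes at the multiple zeta values `v` of the words, or `|S|·|P(v)|` is smaller than the
absolute value of one of its monomials.  Then the average of `p(W)` over the `M^N` tuples of weights is at most
`4 C(|S|,2)·(log_2(|S| H) / log_2 t + 1) / M`.  The height `H` may be as large as `exp(δ M log w)`.

The proof rests on the inequality `t^2 ζ(A C b B) ≤ ζ(A C B)` for words `A`, `B`, `C` in letters at least 2, where `A` and
`B` have at least `t` letters and `b` is a letter, and on the following Kraft inequality: if the letters have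
probabilities, then the sum of the probabilities of all the words of length at least `2 t` whose value is in the interval
`[v, 2^y v]` is at most `y / (2 log_2 t) + 1`.  The probability of the letter `b` is `x^b` here, `x^2 + x^3 = 1`.
-/

set_option autoImplicit false

namespace Pool.Agent.Results.MP_c2d7b4_nt.TypicalHoffmanWeights

open Finset Filter Topology

/-- the sum of `∏_j 1 / n_j ^ k_j` over `m > n_1 > ... > n_r ≥ 1` (it is `1` for the empty index) -/
noncomputable def trunc : List ℕ → ℕ → ℝ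
  | [], _ => 1
  | a :: s, m => ∑ j ∈ Finset.Ico 1 m, 1 / (j : ℝ) ^ a * trunc s j

/-- the multiple zeta value of the index `k_1, ..., k_r`, the limit of the truncated sums; `k_1` belongs to the largest
variable -/
noncomputable def zeta (s : List ℕ) : ℝ := limUnder atTop (trunc s)

/-- the indices of the Hoffman elements of weight `n`: the words in the letters 2 and 3 with the sum `n` -/
def hoffman (n : ℕ) : Set (List ℕ) := {s | (∀ a ∈ s, a = 2 ∨ a = 3) ∧ s.sum = n}

/-- the tuples of words of weights `W_1, ..., W_N` in the letters 2, 3 with multiple zeta values `v_1, ..., v_N` for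
which there is a nonzero integer polynomial `P` with monomials in `S` and coefficients at most `H` in absolute value such
that `P(v) = 0`, or `|S|·|P(v)|` is smaller than the absolute value of a monomial of `P` at `v` -/
def exceptional {N : ℕ} (S : Finset (Fin N →₀ ℕ)) (H : ℕ) (W : Fin N → ℕ) : Set (Fin N → List ℕ) :=
  {u | (∀ i, u i ∈ hoffman (W i)) ∧ ∃ P : MvPolynomial (Fin N) ℤ, P ≠ 0 ∧ P.support ⊆ S ∧
    (∀ α, |P.coeff α| ≤ H) ∧ (MvPolynomial.aeval (fun i => zeta (u i)) P = 0 ∨
      ∃ α ∈ P.support, (#S : ℝ) * |MvPolynomial.aeval (fun i => zeta (u i)) P| < |∏ i, zeta (u i) ^ α i|)}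

theorem trunc_same (s : List ℕ) : ∀ m, trunc s m = Run7.h867.MZ.tr s m := by
  induction s with
  | nil => intro m; rfl
  | cons a s ih =>
    intro m
    rw [trunc, Run7.h867.MZ.tr]
    exact sum_congr rfl fun j _ => by rw [ih]

theorem zeta_same (s : List ℕ) : zeta s = Run7.h867.MZ.mz s := by
  have : trunc s = Run7.h867.MZ.tr s := funext (trunc_same s)
  rw [zeta, Run7.h867.MZ.mz, this]

theorem hoffman_same (n : ℕ) : hoffman n = (Run7.h867.HW.hw n : Set (List ℕ)) := by
  ext s
  rw [mem_coe, Run7.h867.HW.mem_hw]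
  simp only [Run7.h867.HW.mem_D23]
  rfl

/-- there are words of each weight `n ≥ 2`, their values are well-defined and positive; the sum over all the weights of
the window `[w, w + M)`, of any length `M`, of the proportion of the words of the weight whose value has its logarithm in a
given interval of length `y` is at most `4 (y / (2 log_2 t) + 1)`; the average over the tuples of weights in the window
`[w, w + M)` of the proportion of the exceptional tuples of words is small -/
theorem result :
    (∀ n : ℕ, (hoffman n).Finite ∧ (2 ≤ n → 0 < (hoffman n).ncard)) ∧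
    (∀ n : ℕ, 1 ≤ n → ∀ s ∈ hoffman n, Tendsto (trunc s) atTop (𝓝 (zeta s)) ∧ 0 < zeta s) ∧
    (∀ (t w M : ℕ) (x y : ℝ), 2 ≤ t → 6 * t ≤ w → 0 ≤ y →
      ∑ n ∈ Finset.Ico w (w + M),
          ({s ∈ hoffman n | x ≤ Real.logb 2 (zeta s) ∧ Real.logb 2 (zeta s) ≤ x + y}.ncard : ℝ) /
            ((hoffman n).ncard : ℝ) ≤ 4 * (y / (2 * Real.logb 2 t) + 1)) ∧
    ∀ (N : ℕ) (S : Finset (Fin N →₀ ℕ)) (H t w M : ℕ), S.Nonempty → 1 ≤ H → 2 ≤ t → 6 * t ≤ w → 1 ≤ M →
      ∑ W ∈ Fintype.piFinset fun _ : Fin N => Finset.Ico w (w + M),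
          ((exceptional S H W).ncard : ℝ) / ∏ i, ((hoffman (W i)).ncard : ℝ) ≤
        4 * ((#S).choose 2 : ℝ) * ((Real.logb 2 (#S * H) / Real.logb 2 t + 1) / M) * (M : ℝ) ^ N := by
  classical
  have hcard : ∀ n, (hoffman n).ncard = #(Run7.h867.HW.hw n) := by
    intro n
    rw [hoffman_same, Set.ncard_coe_finset]
  have hx0 := Run7.h867.HW.rt_pos
  have hx1 := Run7.h867.HW.rt_gt
  have hpos : ∀ n, 2 ≤ n → 0 < (hoffman n).ncard := by
    intro n hn
    rw [hcard]
    by_contra h0
    rw [not_lt, Nat.le_zero] at h0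
    have h1 := Run7.h867.HW.hw_lower (n - 2)
    rw [show n - 2 + 2 = n by omega, h0, Nat.cast_zero, zero_mul] at h1
    exact absurd h1 (not_le.2 (by positivity))
  have hadm : ∀ n s, s ∈ Run7.h867.HW.hw n → 1 ≤ n → s ∈ Run7.h867.MZ.adm n := by
    intro n s hs hn
    obtain ⟨h1, h2⟩ := Run7.h867.HW.mem_hw.1 hs
    have h3 := Run7.h867.HW.len_hw hs
    have hne : s ≠ [] := by
      rintro rfl
      simp only [List.length_nil] at h3
      omega
    have h4 := Run7.h867.HW.mem_adm (fun a ha => Run7.h867.HW.two_le_D23 a (h1 a ha)) hne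
    rw [h2] at h4
    exact h4
  have hge : ∀ n s, s ∈ Run7.h867.HW.hw n → 1 ≤ n → 2 ≤ n := by
    intro n s hs hn
    have h3 := Run7.h867.HW.len_hw hs
    omega
  have hmz : ∀ n s, s ∈ Run7.h867.HW.hw n → 1 ≤ n → 0 < Run7.h867.MZ.mz s := by
    intro n s hs hn
    have h1 := hadm n s hs hn
    have h2 := hge n s hs hn
    rw [show n = n - 2 + 2 by omega] at h1
    exact Run7.h867.MZ.mz_pos h1
  have habs : ∀ n s, s ∈ Run7.h867.HW.hw n → 1 ≤ n → |Run7.h867.MZ.mz s| = Run7.h867.AM.V (Run7.h867.HW.wn s) := by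
    intro n s hs hn
    obtain ⟨h1, h2⟩ := Run7.h867.HW.mem_hw.1 hs
    have h3 := Run7.h867.HW.len_hw hs
    have hne : s ≠ [] := by
      rintro rfl
      simp only [List.length_nil] at h3
      omega
    exact Run7.h867.HW.abs_mz_wn (fun a ha => Run7.h867.HW.two_le_D23 a (h1 a ha)) hne
  have hx4 : (Run7.h867.HW.rt ^ 4)⁻¹ ≤ 4 := by
    rw [inv_le_comm₀ (by positivity) (by norm_num)]
    have : (3 / 4 : ℝ) ^ 4 ≤ Run7.h867.HW.rt ^ 4 := by gcongr
    norm_num at this ⊢
    linarith
  have hA : ∀ t w M : ℕ, 2 ≤ t → 6 * t ≤ w → ∀ x y : ℝ, 0 ≤ y →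
      ∑ n ∈ Finset.Ico w (w + M), (#((Run7.h867.HW.hw n).filter fun l =>
            x ≤ Real.logb 2 |Run7.h867.MZ.mz l| ∧ Real.logb 2 |Run7.h867.MZ.mz l| ≤ x + y) : ℝ) /
              #(Run7.h867.HW.hw n) ≤ 4 * (y / (2 * Real.logb 2 t) + 1) := by
    intro t w M ht hw x y hy
    have hlog : 0 < Real.logb 2 (t : ℝ) := Real.logb_pos (by norm_num) (by exact_mod_cast (by omega : 1 < t))
    have h8 := Run7.h867.HW.window_hw ht hw (M := M) [] (by simp) x y hy
    have h9 : ∀ n ∈ Finset.Ico w (w + M), (#((Run7.h867.HW.hw n).filter fun l =>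
            x ≤ Real.logb 2 |Run7.h867.MZ.mz l| ∧ Real.logb 2 |Run7.h867.MZ.mz l| ≤ x + y) : ℝ) /
              #(Run7.h867.HW.hw n) ≤ (Run7.h867.HW.rt ^ 4)⁻¹ * ∑ s ∈ Run7.h867.HW.hw n,
            (if x ≤ Real.logb 2 (Run7.h867.AM.V (Run7.h867.HW.wn (s ++ []))) ∧
              Real.logb 2 (Run7.h867.AM.V (Run7.h867.HW.wn (s ++ []))) ≤ x + y then Run7.h867.HW.rt ^ n else 0) := by
      intro n hn
      have hn' := Finset.mem_Ico.1 hn
      have h10 : ∑ s ∈ Run7.h867.HW.hw n,
            (if x ≤ Real.logb 2 (Run7.h867.AM.V (Run7.h867.HW.wn (s ++ []))) ∧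
              Real.logb 2 (Run7.h867.AM.V (Run7.h867.HW.wn (s ++ []))) ≤ x + y then Run7.h867.HW.rt ^ n else 0) =
              #((Run7.h867.HW.hw n).filter fun l =>
            x ≤ Real.logb 2 |Run7.h867.MZ.mz l| ∧ Real.logb 2 |Run7.h867.MZ.mz l| ≤ x + y) *
              Run7.h867.HW.rt ^ n := by
        rw [← nsmul_eq_mul, ← sum_const, sum_filter]
        refine sum_congr rfl fun s hs => ?_
        rw [List.append_nil, habs n s hs (by omega)]
      have hcp : 0 < #(Run7.h867.HW.hw n) := by
        rw [← hcard]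
        exact hpos n (by omega)
      rw [h10, div_le_iff₀ (by exact_mod_cast hcp)]
      have h11 := Run7.h867.HW.hw_lower (n - 2)
      rw [show n - 2 + 2 = n by omega] at h11
      have h12 : 1 ≤ (Run7.h867.HW.rt ^ 4)⁻¹ * (#(Run7.h867.HW.hw n) * Run7.h867.HW.rt ^ n) := by
        rw [inv_mul_eq_div, le_div_iff₀ (by positivity), one_mul]
        exact h11
      calc _ ≤ _ * ((Run7.h867.HW.rt ^ 4)⁻¹ * (#(Run7.h867.HW.hw n) * Run7.h867.HW.rt ^ n)) :=
            le_mul_of_one_le_right (Nat.cast_nonneg _) h12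
        _ = _ := by ring
    calc _ ≤ ∑ n ∈ Finset.Ico w (w + M), (Run7.h867.HW.rt ^ 4)⁻¹ * ∑ s ∈ Run7.h867.HW.hw n,
            (if x ≤ Real.logb 2 (Run7.h867.AM.V (Run7.h867.HW.wn (s ++ []))) ∧
              Real.logb 2 (Run7.h867.AM.V (Run7.h867.HW.wn (s ++ []))) ≤ x + y then Run7.h867.HW.rt ^ n else 0) :=
          sum_le_sum h9
      _ ≤ (Run7.h867.HW.rt ^ 4)⁻¹ * (y / (2 * Real.logb 2 t) + 1) := by
          rw [← mul_sum]
          exact mul_le_mul_of_nonneg_left h8 (by positivity)
      _ ≤ 4 * (y / (2 * Real.logb 2 t) + 1) := mul_le_mul_of_nonneg_right hx4 (by positivity)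
  refine ⟨fun n => ⟨?_, hpos n⟩, ?_, ?_, ?_⟩
  · rw [hoffman_same]
    exact Finset.finite_toSet _
  · intro n hn s hs
    have h1 : trunc s = Run7.h867.MZ.tr s := funext (trunc_same s)
    rw [hoffman_same, mem_coe] at hs
    rw [h1, zeta_same]
    exact ⟨Run7.h867.MZ.tendsto_tr (hadm n s hs hn), hmz n s hs hn⟩
  · intro t w M x y ht hw hy
    refine le_trans (le_of_eq ?_) (hA t w M ht hw x y hy)
    refine sum_congr rfl fun n hn => ?_
    have hn' := Finset.mem_Ico.1 hn
    rw [hcard]
    congr 2
    rw [← Set.ncard_coe_finset]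
    congr 1
    ext s
    rw [mem_coe, mem_filter, hoffman_same]
    simp only [Set.mem_ofPred_eq, mem_coe, zeta_same]
    constructor
    · rintro ⟨h1, h2⟩
      rw [abs_of_pos (hmz n s h1 (by omega))]
      exact ⟨h1, h2⟩
    · rintro ⟨h1, h2⟩
      rw [abs_of_pos (hmz n s h1 (by omega))] at h2
      exact ⟨h1, h2⟩
  · intro N S H t w M hS hH ht hw hM
    obtain ⟨K, hK⟩ : ∃ K : ℝ, K = Real.logb 2 (#S * H) := ⟨_, rfl⟩
    have hK0 : 0 ≤ K := by
      rw [hK]
      refine Real.logb_nonneg (by norm_num) ?_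
      have h1 : 1 ≤ #S * H := Nat.one_le_iff_ne_zero.2 (Nat.mul_ne_zero (card_pos.2 hS).ne' (by omega))
      exact_mod_cast h1
    have hM0 : (0 : ℝ) < M := by exact_mod_cast hM
    have hlog : 0 < Real.logb 2 (t : ℝ) := Real.logb_pos (by norm_num) (by exact_mod_cast (by omega : 1 < t))
    obtain ⟨κ, hκ⟩ : ∃ κ : ℝ, κ = 4 * ((K / Real.logb 2 t + 1) / M) := ⟨_, rfl⟩
    have hκ0 : 0 ≤ κ := by rw [hκ]; positivity
    obtain ⟨G, hG⟩ : ∃ G : Finset (List ℕ), G = (Ico w (w + M)).biUnion Run7.h867.HW.hw := ⟨_, rfl⟩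
    obtain ⟨μ, hμ⟩ : ∃ μ : List ℕ → ℝ, μ = fun s => 1 / (#(Run7.h867.HW.hw s.sum) : ℝ) := ⟨_, rfl⟩
    have hμ0 : ∀ l, 0 ≤ μ l := fun l => by rw [hμ]; positivity
    have hsum : ∀ k, ∀ s ∈ Run7.h867.HW.hw k, s.sum = k := by
      intro k s hs
      exact (Run7.h867.HW.mem_hw.1 hs).2
    have hdisj : ∀ p : List ℕ → Prop, [DecidablePred p] → ∑ s ∈ G.filter p, μ s =
        ∑ n ∈ Ico w (w + M), (#((Run7.h867.HW.hw n).filter p) : ℝ) / #(Run7.h867.HW.hw n) := by
      intro p _
      rw [hG, filter_biUnion, sum_biUnion]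
      · refine sum_congr rfl fun n _ => ?_
        have h2 : ∀ s ∈ (Run7.h867.HW.hw n).filter p, μ s = 1 / (#(Run7.h867.HW.hw n) : ℝ) := by
          intro s hs
          rw [mem_filter] at hs
          rw [hμ]
          simp only
          rw [hsum _ s hs.1]
        rw [sum_congr rfl h2, sum_const, nsmul_eq_mul]
        ring
      · intro j _ j' _ hjj
        rw [Function.onFun, disjoint_left]
        intro s hs hs'
        rw [mem_filter] at hs hs'
        exact hjj ((hsum _ s hs.1).symm.trans (hsum _ s hs'.1))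
    have hcp : ∀ n ∈ Ico w (w + M), 0 < #(Run7.h867.HW.hw n) := by
      intro n hn
      rw [mem_Ico] at hn
      rw [← hcard]
      exact hpos n (by omega)
    have htot : ∑ s ∈ G, μ s = M := by
      have h5 := hdisj (fun _ => True)
      simp only [filter_true] at h5
      rw [h5]
      have h6 : ∀ n ∈ Ico w (w + M), (#(Run7.h867.HW.hw n) : ℝ) / #(Run7.h867.HW.hw n) = 1 := by
        intro n hn
        exact div_self (by exact_mod_cast (hcp n hn).ne')
      rw [sum_congr rfl h6]
      simp
    have hGA : ∀ s ∈ G, ∃ n, n ∈ Ico w (w + M) ∧ s ∈ Run7.h867.HW.hw n := by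
      intro s hs
      rw [hG, mem_biUnion] at hs
      exact hs
    have hmain := Run7.h867.GT.main_w (fun _ : Fin N => G) μ hμ0 Run7.h867.MZ.mz (fun i l hl => by
        obtain ⟨n, hn, hl⟩ := hGA l hl
        rw [mem_Ico] at hn
        exact (hmz n l hl (by omega)).ne') κ hκ0 S H hH hS (fun i x => by
        rw [← hK, htot]
        have h7 := hdisj (fun l => x ≤ Real.logb 2 |Run7.h867.MZ.mz l| ∧ Real.logb 2 |Run7.h867.MZ.mz l| ≤ x + 2 * K)
        rw [h7]
        refine (hA t w M ht hw x (2 * K) (by positivity)).trans (le_of_eq ?_)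
        rw [hκ]
        field_simp)
    have hsub : ∀ W : Fin N → ℕ, exceptional S H W ⊆
        (((Fintype.piFinset fun i => Run7.h867.HW.hw (W i)).filter fun u =>
        Run7.h867.GT.Bad S H fun i => Run7.h867.MZ.mz (u i) : Finset (Fin N → List ℕ)) : Set (Fin N → List ℕ)) := by
      intro W u hu
      obtain ⟨hu1, P, hP0, hP, hc, hor⟩ := hu
      rw [mem_coe, mem_filter, Fintype.mem_piFinset]
      have hmem : ∀ i, u i ∈ Run7.h867.HW.hw (W i) := by
        intro i
        have := hu1 i
        rw [hoffman_same, mem_coe] at this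
        exact this
      refine ⟨hmem, P, hP0, hP, hc, ?_⟩
      simp only [zeta_same] at hor
      exact hor
    calc ∑ W ∈ Fintype.piFinset fun _ : Fin N => Finset.Ico w (w + M),
          ((exceptional S H W).ncard : ℝ) / ∏ i, ((hoffman (W i)).ncard : ℝ)
        ≤ ∑ W ∈ Fintype.piFinset fun _ : Fin N => Finset.Ico w (w + M),
          ∑ u ∈ (Fintype.piFinset fun i => Run7.h867.HW.hw (W i)).filter fun u =>
            Run7.h867.GT.Bad S H fun i => Run7.h867.MZ.mz (u i), ∏ i, μ (u i) := by
          refine sum_le_sum fun W hW => ?_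
          have h1 := Set.ncard_le_ncard (hsub W) (Finset.finite_toSet _)
          rw [Set.ncard_coe_finset] at h1
          have h2 : ∀ u ∈ (Fintype.piFinset fun i => Run7.h867.HW.hw (W i)).filter fun u =>
              Run7.h867.GT.Bad S H fun i => Run7.h867.MZ.mz (u i),
              ∏ i, μ (u i) = 1 / ∏ i, ((hoffman (W i)).ncard : ℝ) := by
            intro u hu
            rw [mem_filter, Fintype.mem_piFinset] at hu
            rw [hμ, one_div, ← prod_inv_distrib]
            refine prod_congr rfl fun i _ => ?_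
            simp only
            rw [hsum _ _ (hu.1 i), hcard, one_div]
          rw [sum_congr rfl h2, sum_const, nsmul_eq_mul, mul_one_div]
          refine div_le_div_of_nonneg_right ?_ (prod_nonneg fun i _ => by positivity)
          exact_mod_cast h1
      _ = ∑ u ∈ (Fintype.piFinset fun _ : Fin N => Finset.Ico w (w + M)).biUnion fun W =>
          (Fintype.piFinset fun i => Run7.h867.HW.hw (W i)).filter fun u =>
            Run7.h867.GT.Bad S H fun i => Run7.h867.MZ.mz (u i), ∏ i, μ (u i) := by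
          rw [sum_biUnion]
          intro W _ W' _ hne
          rw [Function.onFun, disjoint_left]
          intro u hu hu'
          apply hne
          rw [mem_filter, Fintype.mem_piFinset] at hu hu'
          funext i
          exact (hsum _ _ (hu.1 i)).symm.trans (hsum _ _ (hu'.1 i))
      _ ≤ ∑ u ∈ (Fintype.piFinset fun _ : Fin N => G).filter fun u =>
            Run7.h867.GT.Bad S H fun i => Run7.h867.MZ.mz (u i), ∏ i, μ (u i) := by
          refine sum_le_sum_of_subset_of_nonneg ?_ fun u _ _ => prod_nonneg fun i _ => hμ0 _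
          intro u hu
          rw [mem_biUnion] at hu
          obtain ⟨W, hW, hu⟩ := hu
          rw [mem_filter, Fintype.mem_piFinset] at hu
          rw [mem_filter, Fintype.mem_piFinset]
          refine ⟨fun i => ?_, hu.2⟩
          rw [hG, mem_biUnion]
          exact ⟨W i, Fintype.mem_piFinset.1 hW i, hu.1 i⟩
      _ ≤ _ := hmain
      _ = _ := by
          rw [htot, prod_const, card_univ, Fintype.card_fin, hκ, hK]
          ring

end Pool.Agent.Results.MP_c2d7b4_nt.TypicalHoffmanWeights
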